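import Pool.Agent.L0h7.UL.Stm

/-! # Module FIN: the kernel dimension for a finite group -/

set_option autoImplicit false
set_option linter.unusedSectionVars false

open scoped ENNReal InnerProductSpace

noncomputable section

namespace Pool.Agent.L0h69.UL

open H61R3NG Pool.Agent.L0h7.UL

section
variable {Q : Type} [Group Q] [Fintype Q]

/-- the orthonormal basis of `E2 Q` -/
def ob : OrthonormalBasis Q ℂ (E2 Q) :=
  (EuclideanSpace.basisFun Q ℂ).map (lpPiLpₗᵢ (fun _ : Q => ℂ) ℂ).symm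

lemma ob_apply (g : Q) : (ob g : E2 Q) = dl g := by
  classical
  apply lp.ext
  funext y
  rw [dl_apply]
  unfold ob
  rw [OrthonormalBasis.map_apply, coe_lpPiLpₗᵢ_symm]
  simp [EuclideanSpace.basisFun_apply]

lemma kd_fin (V : Submodule ℂ (E2 Q)) [V.HasOrthogonalProjection]
    (hV : ∀ (g : Q) (f : E2 Q), f ∈ V → Rt g f ∈ V) :
    kd V * Nat.card Q = Module.finrank ℂ V := by
  have : FiniteDimensional ℂ (E2 Q) := Module.Basis.finiteDimensional_of_finite ob.toBasis
  have h1 : LinearMap.trace ℂ (E2 Q) (V.starProjection : E2 Q →ₗ[ℂ] E2 Q)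
      = (Module.finrank ℂ V : ℂ) := by
    apply LinearMap.IsProj.trace (p := V)
    constructor
    · intro x
      exact Submodule.starProjection_apply_mem _ _
    · intro x hx
      exact Submodule.starProjection_eq_self_iff.2 hx
  rw [LinearMap.trace_eq_sum_inner _ ob] at h1
  have h2 : ∀ g : Q, ⟪(ob g : E2 Q), (V.starProjection : E2 Q →ₗ[ℂ] E2 Q) (ob g)⟫_ℂ = (kd V : ℂ) := by
    intro g
    rw [ob_apply]
    show ⟪dl g, V.starProjection (dl g)⟫_ℂ = _
    rw [proj_dl hV, inner_dl_left, Rt_apply, mul_inv_cancel, xi_one]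
    rfl
  rw [Finset.sum_congr rfl fun g _ => h2 g, Finset.sum_const, Finset.card_univ, nsmul_eq_mul] at h1
  rw [Nat.card_eq_fintype_card, mul_comm]
  exact_mod_cast h1

/-- the vector of coefficients -/
def Ph : MonoidAlgebra ℂ Q →ₗ[ℂ] E2 Q where
  toFun β := Top Q β (dl 1)
  map_add' x y := by rw [map_add]; rfl
  map_smul' c x := by rw [map_smul]; rfl

lemma Ph_apply (β : MonoidAlgebra ℂ Q) (y : Q) : Ph β y = β.coeff y := Top_dl β y

lemma Ph_inj : Function.Injective (Ph (Q := Q)) := by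
  intro x y h
  ext g
  rw [← Ph_apply, ← Ph_apply, h]

lemma Ph_surj : Function.Surjective (Ph (Q := Q)) := by
  classical
  intro f
  refine ⟨∑ g : Q, MonoidAlgebra.single g (f g), ?_⟩
  apply lp.ext
  funext y
  rw [Ph_apply]
  simp [MonoidAlgebra.coeff_single, Finsupp.single_apply]

/-- the linear equivalence -/
def PhE : MonoidAlgebra ℂ Q ≃ₗ[ℂ] E2 Q := LinearEquiv.ofBijective Ph ⟨Ph_inj, Ph_surj⟩

lemma ker_map (α : MonoidAlgebra ℂ Q) :
    LinearMap.ker (Top Q α : E2 Q →ₗ[ℂ] E2 Q)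
      = (LinearMap.ker (LinearMap.mulLeft ℂ α)).map (PhE (Q := Q) : MonoidAlgebra ℂ Q →ₗ[ℂ] E2 Q) := by
  ext f
  rw [Submodule.mem_map]
  have key : ∀ β : MonoidAlgebra ℂ Q, Top Q α (Ph β) = Ph (α * β) := by
    intro β
    show Top Q α (Top Q β (dl 1)) = Top Q (α * β) (dl 1)
    rw [map_mul]
    rfl
  constructor
  · intro hf
    obtain ⟨β, rfl⟩ := Ph_surj f
    refine ⟨β, ?_, rfl⟩
    rw [LinearMap.mem_ker] at hf ⊢
    have hf' : Top Q α (Ph β) = 0 := hf
    rw [key] at hf'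
    rw [LinearMap.mulLeft_apply]
    apply Ph_inj
    rw [hf', map_zero]
  · rintro ⟨β, hβ, rfl⟩
    rw [LinearMap.mem_ker] at hβ ⊢
    rw [LinearMap.mulLeft_apply] at hβ
    show Top Q α (Ph β) = 0
    rw [key, hβ, map_zero]

end

theorem t_FIN : S_FIN := by
  intro Q _ _ α
  have : Fintype Q := Fintype.ofFinite Q
  unfold kdim
  rw [kd_fin _ (fun g f hf => by
    rw [LinearMap.mem_ker] at hf ⊢
    have hf' : Top Q α f = 0 := hf
    show Top Q α (Rt g f) = 0
    rw [Top_Rt, hf', map_zero]), ker_map, LinearEquiv.finrank_map_eq]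

end Pool.Agent.L0h69.UL
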