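import Pool.Agent.L0h69.UL.FIN

/-! # The regular representation of a finite group by matrices -/

set_option autoImplicit false
set_option linter.unusedSectionVars false

open scoped ENNReal InnerProductSpace

noncomputable section

namespace Pool.Agent.L0h69.UL

open H61R3NG Pool.Agent.L0h7.UL

variable {Q : Type} [Group Q] [Fintype Q]

/-- the regular representation as a matrix -/
def rho (β : MonoidAlgebra ℂ Q) : Matrix Q Q ℂ := Matrix.of fun g h => β.coeff (g * h⁻¹)

lemma rho_apply (β : MonoidAlgebra ℂ Q) (g h : Q) : rho β g h = β.coeff (g * h⁻¹) := rfl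

lemma coeff_mul' (β γ : MonoidAlgebra ℂ Q) (y : Q) :
    (β * γ).coeff y = ∑ x : Q, β.coeff x * γ.coeff (x⁻¹ * y) := by
  rw [← Top_dl (β * γ), map_mul]
  show Top Q β (Top Q γ (dl 1)) y = _
  rw [Top_apply_apply]
  simp only [Top_dl]
  refine Finset.sum_subset (Finset.subset_univ _) fun x _ hx => ?_
  rw [Finsupp.notMem_support_iff.1 hx, zero_mul]

lemma rho_mul (β γ : MonoidAlgebra ℂ Q) : rho (β * γ) = rho β * rho γ := by
  ext g h
  rw [rho_apply, coeff_mul', Matrix.mul_apply,
    ← Equiv.sum_comp ((Equiv.inv Q).trans (Equiv.mulLeft g))]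
  refine Finset.sum_congr rfl fun k _ => ?_
  simp [rho_apply, mul_assoc]

lemma rho_one [DecidableEq Q] : rho (1 : MonoidAlgebra ℂ Q) = 1 := by
  ext g h
  rw [rho_apply, Matrix.one_apply, MonoidAlgebra.one_def, MonoidAlgebra.coeff_single,
    Finsupp.single_apply]
  by_cases hgh : g = h
  · subst hgh; simp
  · have : ¬ (1 = g * h⁻¹) := fun h' => hgh (by
      have := h'.symm
      rwa [mul_inv_eq_one] at this)
    rw [if_neg hgh, if_neg this]

lemma rho_sub (β γ : MonoidAlgebra ℂ Q) : rho (β - γ) = rho β - rho γ := by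
  ext g h
  simp [rho_apply]

lemma rho_smul (c : ℂ) (β : MonoidAlgebra ℂ Q) : rho (c • β) = c • rho β := by
  ext g h
  simp [rho_apply]

lemma rho_pow [DecidableEq Q] (β : MonoidAlgebra ℂ Q) (n : ℕ) : rho (β ^ n) = rho β ^ n := by
  induction n with
  | zero => rw [pow_zero, pow_zero, rho_one]
  | succ n ih => rw [pow_succ, pow_succ, rho_mul, ih]

lemma st_coeff (α : MonoidAlgebra ℂ Q) (x : Q) :
    (st α).coeff x = (starRingEnd ℂ) (α.coeff x⁻¹) := by
  classical
  unfold st
  rw [MonoidAlgebra.coeff_sum, Finsupp.finsetSum_apply]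
  have : ∀ y ∈ α.coeff.support, (MonoidAlgebra.single y⁻¹ ((starRingEnd ℂ) (α.coeff y))).coeff x
      = if y = x⁻¹ then (starRingEnd ℂ) (α.coeff x⁻¹) else 0 := by
    intro y _
    rw [MonoidAlgebra.coeff_single, Finsupp.single_apply]
    by_cases h : y = x⁻¹
    · subst h; simp
    · rw [if_neg h, if_neg (fun h' => h (by rw [← h', inv_inv]))]
  rw [Finset.sum_congr rfl this, Finset.sum_ite_eq']
  by_cases hy : x⁻¹ ∈ α.coeff.support
  · rw [if_pos hy]
  · rw [if_neg hy, Finsupp.notMem_support_iff.1 hy, map_zero]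

lemma rho_st (α : MonoidAlgebra ℂ Q) : rho (st α) = (rho α).conjTranspose := by
  ext g h
  rw [rho_apply, st_coeff, Matrix.conjTranspose_apply, rho_apply]
  simp

lemma rho_Dm [DecidableEq Q] (R : ℝ) (α : MonoidAlgebra ℂ Q) :
    rho (Dm R α) = 1 - ((1 / R : ℝ) : ℂ) • ((rho α).conjTranspose * rho α) := by
  unfold Dm
  rw [rho_sub, rho_one, rho_smul, rho_mul, rho_st]

lemma trace_rho (β : MonoidAlgebra ℂ Q) : (rho β).trace = (Fintype.card Q : ℂ) * β.coeff 1 := by
  unfold Matrix.trace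
  simp [rho_apply]

lemma finrank_rho (α : MonoidAlgebra ℂ Q) [DecidableEq Q] :
    Module.finrank ℂ (LinearMap.ker (LinearMap.mulLeft ℂ α)) + (rho α).rank = Fintype.card Q := by
  let E : MonoidAlgebra ℂ Q ≃ₗ[ℂ] (Q → ℂ) := (PhE (Q := Q)).trans
    ((lpPiLpₗᵢ (fun _ : Q => ℂ) ℂ).toLinearEquiv.trans (WithLp.linearEquiv 2 ℂ (Q → ℂ)))
  have hE : ∀ (β : MonoidAlgebra ℂ Q) (g : Q), E β g = β.coeff g := fun β g => Ph_apply β g
  have hk : LinearMap.ker (Matrix.mulVecLin (rho α))
      = (LinearMap.ker (LinearMap.mulLeft ℂ α)).map (E : MonoidAlgebra ℂ Q →ₗ[ℂ] (Q → ℂ)) := by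
    have key : ∀ β : MonoidAlgebra ℂ Q, Matrix.mulVecLin (rho α) (E β) = E (α * β) := by
      intro β
      funext g
      rw [hE, Matrix.mulVecLin_apply, coeff_mul']
      unfold Matrix.mulVec dotProduct
      rw [← Equiv.sum_comp ((Equiv.inv Q).trans (Equiv.mulLeft g))
        (fun x => α.coeff x * β.coeff (x⁻¹ * g))]
      refine Finset.sum_congr rfl fun k _ => ?_
      rw [hE]
      simp [rho_apply]
    ext f
    rw [Submodule.mem_map]
    constructor
    · intro hf
      obtain ⟨β, rfl⟩ := E.surjective f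
      refine ⟨β, ?_, rfl⟩
      rw [LinearMap.mem_ker, key] at hf
      rw [LinearMap.mem_ker, LinearMap.mulLeft_apply]
      exact E.injective (by rw [hf, map_zero])
    · rintro ⟨β, hβ, rfl⟩
      rw [LinearMap.mem_ker, LinearMap.mulLeft_apply] at hβ
      rw [LinearMap.mem_ker]
      show Matrix.mulVecLin (rho α) (E β) = 0
      rw [key, hβ, map_zero]
  rw [← LinearEquiv.finrank_map_eq E, ← hk]
  have := LinearMap.finrank_range_add_finrank_ker (Matrix.mulVecLin (rho α))
  rw [Module.finrank_fintype_fun_eq_card] at this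
  rw [← this, add_comm]
  rfl

end Pool.Agent.L0h69.UL
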