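import Pool.Agent.L0h69.UL.LUA

/-! # Eigenvalues -/

set_option autoImplicit false
set_option linter.unusedSectionVars false

open scoped ENNReal InnerProductSpace NNReal

noncomputable section

namespace Pool.Agent.L0h69.UL

open H61R3NG Pool.Agent.L0h7.UL

section gen
variable {n : Type} [Fintype n] [DecidableEq n]

lemma trace_pow (M : Matrix n n ℂ) (hM : M.IsHermitian) (c : ℝ) (k : ℕ) :
    ((1 - (c : ℂ) • M) ^ k).trace = ∑ i, (((1 - c * hM.eigenvalues i) ^ k : ℝ) : ℂ) := by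
  set φ := Unitary.conjStarAlgAut ℂ (Matrix n n ℂ) hM.eigenvectorUnitary with hφ
  have h1 : 1 - (c : ℂ) • M = φ (Matrix.diagonal fun i => ((1 - c * hM.eigenvalues i : ℝ) : ℂ)) := by
    have h2 : (Matrix.diagonal fun i => ((1 - c * hM.eigenvalues i : ℝ) : ℂ))
        = 1 - (c : ℂ) • Matrix.diagonal (RCLike.ofReal ∘ hM.eigenvalues) := by
      ext i j
      by_cases hij : i = j
      · subst hij; simp
      · simp [hij]
    rw [h2, map_sub, map_one, map_smul, hφ, ← hM.spectral_theorem]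
  rw [h1, ← map_pow, Matrix.diagonal_pow, hφ, Unitary.conjStarAlgAut_apply, Matrix.trace_mul_comm,
    ← mul_assoc]
  simp [Matrix.trace_diagonal]

attribute [local instance] Matrix.linftyOpNormedAddCommGroup Matrix.linftyOpNormedRing
  Matrix.linftyOpNormedAlgebra Matrix.linftyOpNormedSpace in
lemma eig_le [Nonempty n] (N : Matrix n n ℂ) (hM : (N.conjTranspose * N).IsHermitian) (B : ℝ)
    (h1 : ∀ i, ∑ j, ‖N i j‖ ≤ B) (h2 : ∀ i, ∑ j, ‖N j i‖ ≤ B) (i : n) :
    hM.eigenvalues i ≤ B ^ 2 := by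
  have hs := hM.eigenvalues_mem_spectrum_real i
  have h3 : ‖hM.eigenvalues i‖ ≤ ‖N.conjTranspose * N‖ := spectrum.norm_le_norm_of_mem hs
  have hB : 0 ≤ B := (Finset.sum_nonneg fun j _ => norm_nonneg (N i j)).trans (h1 i)
  have hn : ∀ X : Matrix n n ℂ, (∀ i, ∑ j, ‖X i j‖ ≤ B) → ‖X‖ ≤ B := by
    intro X hX
    rw [Matrix.linfty_opNorm_def]
    have : ((Finset.univ : Finset n).sup fun i : n => ∑ j : n, ‖X i j‖₊ : ℝ≥0) ≤ ⟨B, hB⟩ := by
      apply Finset.sup_le
      intro i _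
      have := hX i
      apply NNReal.coe_le_coe.1
      rw [NNReal.coe_sum]
      exact this
    exact_mod_cast this
  have h4 : ‖N‖ ≤ B := hn N h1
  have h5 : ‖N.conjTranspose‖ ≤ B := by
    apply hn
    intro i
    simpa [Matrix.conjTranspose_apply] using h2 i
  calc hM.eigenvalues i ≤ ‖hM.eigenvalues i‖ := le_abs_self _
    _ ≤ ‖N.conjTranspose * N‖ := h3
    _ ≤ ‖N.conjTranspose‖ * ‖N‖ := norm_mul_le _ _
    _ ≤ B * B := mul_le_mul h5 h4 (norm_nonneg _) hB
    _ = B ^ 2 := (sq B).symm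

open Polynomial in
/-- the product of the nonzero eigenvalues of an integral positive semidefinite matrix -/
lemma prod_ge (Z : Matrix n n ℤ) (hM : (Z.map (Int.castRingHom ℂ)).IsHermitian)
    (h0 : ∀ i, 0 ≤ hM.eigenvalues i) :
    1 ≤ ∏ i ∈ Finset.univ.filter (fun i => hM.eigenvalues i ≠ 0), hM.eigenvalues i := by
  set t := hM.eigenvalues with ht
  set S := Finset.univ.filter (fun i => t i ≠ 0) with hS
  have h1 : (Z.map (Int.castRingHom ℂ)).charpoly = ∏ i, (X - C ((t i : ℝ) : ℂ)) := hM.charpoly_eq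
  rw [Matrix.charpoly_map] at h1
  have h2 : ∏ i, (X - C ((t i : ℝ) : ℂ))
      = X ^ (Finset.univ.filter (fun i => ¬ t i ≠ 0)).card * ∏ i ∈ S, (X - C ((t i : ℝ) : ℂ)) := by
    rw [← Finset.prod_filter_mul_prod_filter_not Finset.univ (fun i => t i ≠ 0), mul_comm]
    congr 1
    rw [Finset.prod_congr rfl (g := fun _ => X), Finset.prod_const]
    intro i hi
    rw [Finset.mem_filter, not_not] at hi
    rw [hi.2]
    simp
  set z := (Finset.univ.filter (fun i => ¬ t i ≠ 0)).card with hz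
  have h3 : ((Z.charpoly.coeff z : ℤ) : ℂ) = ∏ i ∈ S, (-((t i : ℝ) : ℂ)) := by
    have h4 := congrArg (fun p => Polynomial.coeff p z) (h1.trans h2)
    beta_reduce at h4
    rw [Polynomial.coeff_map] at h4
    have h5 : (X ^ z * ∏ i ∈ S, (X - C ((t i : ℝ) : ℂ))).coeff z
        = (∏ i ∈ S, (X - C ((t i : ℝ) : ℂ))).coeff 0 := by
      have := Polynomial.coeff_X_pow_mul (∏ i ∈ S, (X - C ((t i : ℝ) : ℂ))) z 0
      rwa [zero_add] at this
    rw [h5, Polynomial.coeff_zero_eq_eval_zero, Polynomial.eval_prod] at h4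
    simpa using h4
  have h6 : ‖((Z.charpoly.coeff z : ℤ) : ℂ)‖ = ∏ i ∈ S, t i := by
    rw [h3, norm_prod]
    refine Finset.prod_congr rfl fun i _ => ?_
    rw [norm_neg, Complex.norm_real, Real.norm_of_nonneg (h0 i)]
  have hpos : 0 < ∏ i ∈ S, t i := by
    apply Finset.prod_pos
    intro i hi
    rw [hS, Finset.mem_filter] at hi
    exact lt_of_le_of_ne (h0 i) (Ne.symm hi.2)
  rw [← h6] at hpos ⊢
  rw [Complex.norm_intCast] at hpos ⊢
  have : Z.charpoly.coeff z ≠ 0 := by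
    intro h
    rw [h] at hpos
    simp at hpos
  have h7 : 1 ≤ |Z.charpoly.coeff z| := Int.one_le_abs this
  exact_mod_cast h7

end gen

end Pool.Agent.L0h69.UL
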