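import Pool.Agent.L0h69.UL.LUB

/-! # Module LUE: Lück's estimate for finite groups -/

set_option autoImplicit false
set_option linter.unusedSectionVars false

open scoped ENNReal InnerProductSpace NNReal ComplexOrder

noncomputable section

namespace Pool.Agent.L0h69.UL

open H61R3NG Pool.Agent.L0h7.UL

/-- the mean of the even powers of a number -/
lemma mean_le (x : ℝ) (N : ℕ) (hN : 0 < N) (h0 : 0 ≤ x) (h1 : x < 1) :
    (N : ℝ)⁻¹ * ∑ j ∈ Finset.range N, x ^ (2 * j) ≤ 1 / (N * (1 - x)) := by
  have hN' : (0 : ℝ) < N := by exact_mod_cast hN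
  have h2 : ∑ j ∈ Finset.range N, x ^ (2 * j) ≤ ∑ j ∈ Finset.range N, x ^ j := by
    refine Finset.sum_le_sum fun j _ => ?_
    exact pow_le_pow_of_le_one h0 h1.le (by omega)
  have h3 : ∑ j ∈ Finset.range N, x ^ j ≤ 1 / (1 - x) := by
    rw [geom_sum_eq h1.ne, ← neg_div_neg_eq, neg_sub, neg_sub]
    apply div_le_div_of_nonneg_right _ (by linarith)
    have := pow_nonneg h0 N
    linarith
  rw [one_div, mul_inv, ← one_div (1 - x)]
  exact mul_le_mul_of_nonneg_left (h2.trans h3) (inv_nonneg.2 hN'.le)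

lemma mean_le_one (x : ℝ) (N : ℕ) (h0 : 0 ≤ x) (h1 : x ≤ 1) :
    (N : ℝ)⁻¹ * ∑ j ∈ Finset.range N, x ^ (2 * j) ≤ 1 := by
  have h2 : ∑ j ∈ Finset.range N, x ^ (2 * j) ≤ N := by
    refine (Finset.sum_le_card_nsmul _ _ 1 fun j _ => pow_le_one₀ h0 h1).trans ?_
    simp
  rcases Nat.eq_zero_or_pos N with h | h
  · subst h; simp
  · have hN' : (0 : ℝ) < N := by exact_mod_cast h
    rw [inv_mul_le_iff₀ hN', mul_one]
    exact h2

theorem t_LUE : S_LUE := by
  classical
  intro Q _ _ α R hR hnm hint N l hN hl0 hl1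
  have : Fintype Q := Fintype.ofFinite Q
  have hR0 : (0 : ℝ) < R := by linarith
  have hN' : (0 : ℝ) < N := by exact_mod_cast hN
  set q : ℕ := Fintype.card Q with hq
  have hq0 : (0 : ℝ) < q := by
    have : 0 < q := Fintype.card_pos
    exact_mod_cast this
  -- the matrix
  have hM : ((rho α).conjTranspose * rho α).IsHermitian :=
    Matrix.isHermitian_conjTranspose_mul_self _
  set t := hM.eigenvalues with ht
  have ht0 : ∀ i, 0 ≤ t i := fun i =>
    (Matrix.posSemidef_conjTranspose_mul_self (rho α)).eigenvalues_nonneg i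
  have hnm' : nm α = ∑ x : Q, ‖α.coeff x‖ := by
    unfold nm
    refine Finset.sum_subset (Finset.subset_univ _) fun x _ hx => ?_
    rw [Finsupp.notMem_support_iff.1 hx, norm_zero]
  have htR : ∀ i, t i ≤ R := by
    intro i
    refine (eig_le (rho α) hM (nm α) ?_ ?_ i).trans hnm
    · intro g
      rw [hnm', ← Equiv.sum_comp ((Equiv.inv Q).trans (Equiv.mulLeft g)) (fun x => ‖α.coeff x‖)]
      refine le_of_eq (Finset.sum_congr rfl fun k _ => ?_)
      simp [rho_apply]
    · intro g
      rw [hnm', ← Equiv.sum_comp (Equiv.mulRight g⁻¹) (fun x => ‖α.coeff x‖)]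
      refine le_of_eq (Finset.sum_congr rfl fun k _ => ?_)
      simp [rho_apply]
  -- the sum
  have hsg : sg R N α = (1 / q) * ∑ i, ((N : ℝ)⁻¹ * ∑ j ∈ Finset.range N, (1 - t i / R) ^ (2 * j)) := by
    unfold sg
    have h1 : ∀ j : ℕ, (((Dm R α) ^ (2 * j)).coeff 1).re = (1 / q) * ∑ i, (1 - t i / R) ^ (2 * j) := by
      intro j
      have h2 := trace_rho ((Dm R α) ^ (2 * j))
      rw [rho_pow, rho_Dm, trace_pow _ hM] at h2
      have h3 : (((Dm R α) ^ (2 * j)).coeff 1)
          = (((1 / q) * ∑ i, (1 - t i / R) ^ (2 * j) : ℝ) : ℂ) := by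
        have h4 : (q : ℂ) ≠ 0 := by exact_mod_cast hq0.ne'
        have h5 : (((Dm R α) ^ (2 * j)).coeff 1) = (1 / q) * ((q : ℂ) * ((Dm R α) ^ (2 * j)).coeff 1) := by
          field_simp
        rw [h5, ← h2]
        push_cast
        congr 1
        refine Finset.sum_congr rfl fun i _ => ?_
        rw [one_div_mul_eq_div]
      rw [h3, Complex.ofReal_re]
    rw [Finset.sum_congr rfl fun j _ => h1 j, ← Finset.mul_sum, Finset.sum_comm, Finset.mul_sum,
      Finset.mul_sum, Finset.mul_sum]
    refine Finset.sum_congr rfl fun i _ => ?_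
    ring
  -- the kernel
  have hker : kdim α = (1 / q) * ((Finset.univ.filter (fun i => t i = 0)).card : ℝ) := by
    have h1 := t_FIN Q α
    have h2 := finrank_rho α
    have h3 : (rho α).rank = (Finset.univ.filter (fun i => t i ≠ 0)).card := by
      rw [← Matrix.rank_conjTranspose_mul_self, hM.rank_eq_card_non_zero_eigs, Fintype.card_subtype]
    have h4 : (Finset.univ.filter (fun i => t i = 0)).card
        + (Finset.univ.filter (fun i => t i ≠ 0)).card = q := by
      rw [Finset.card_filter_add_card_filter_not]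
      rfl
    rw [Nat.card_eq_fintype_card] at h1
    have h5 : Module.finrank ℂ (LinearMap.ker (LinearMap.mulLeft ℂ α))
        = (Finset.univ.filter (fun i => t i = 0)).card := by omega
    rw [h5, ← hq] at h1
    rw [← h1]
    field_simp
  -- the product of the nonzero eigenvalues
  have hprod : 1 ≤ ∏ i ∈ Finset.univ.filter (fun i => t i ≠ 0), t i := by
    choose z hz using hint
    set Z0 : Matrix Q Q ℤ := Matrix.of fun g h => z (g * h⁻¹) with hZ0
    have h1 : rho α = Z0.map (Int.castRingHom ℂ) := by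
      ext g h
      rw [rho_apply, hz]
      rfl
    have h2 : (rho α).conjTranspose = Z0.transpose.map (Int.castRingHom ℂ) := by
      ext g h
      rw [Matrix.conjTranspose_apply, h1]
      simp
    have h3 : (rho α).conjTranspose * rho α = (Z0.transpose * Z0).map (Int.castRingHom ℂ) := by
      rw [Matrix.map_mul, ← h1, ← h2]
    have key : ∀ (M : Matrix Q Q ℂ) (hM : M.IsHermitian) (h0 : ∀ i, 0 ≤ hM.eigenvalues i)
        (Z : Matrix Q Q ℤ) (_ : M = Z.map (Int.castRingHom ℂ)),
        1 ≤ ∏ i ∈ Finset.univ.filter (fun i => hM.eigenvalues i ≠ 0), hM.eigenvalues i := by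
      intro M hM h0 Z hZ
      subst hZ
      exact prod_ge Z hM h0
    exact key _ hM ht0 _ h3
  set s := (Finset.univ.filter (fun i => 0 < t i ∧ t i ≤ l)).card with hs
  have hlogR : 0 ≤ Real.log R := Real.log_nonneg hR
  have hlogl : Real.log l < 0 := Real.log_neg hl0 hl1
  have hs1 : (s : ℝ) * Real.log (1 / l) ≤ q * Real.log R := by
    have h1 : 0 ≤ ∑ i ∈ Finset.univ.filter (fun i => t i ≠ 0), Real.log (t i) := by
      rw [← Real.log_prod (fun i hi => (Finset.mem_filter.1 hi).2)]
      exact Real.log_nonneg hprod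
    have h2 : ∑ i ∈ Finset.univ.filter (fun i => t i ≠ 0), Real.log (t i)
        ≤ ∑ i : Q, ((if 0 < t i ∧ t i ≤ l then Real.log l else 0) + Real.log R) := by
      rw [Finset.sum_filter]
      refine Finset.sum_le_sum fun i _ => ?_
      by_cases h0 : t i ≠ 0
      · rw [if_pos h0]
        have hpos : 0 < t i := lt_of_le_of_ne (ht0 i) (Ne.symm h0)
        by_cases hl : t i ≤ l
        · rw [if_pos ⟨hpos, hl⟩]
          have := Real.log_le_log hpos hl
          linarith
        · rw [if_neg (fun h => hl h.2), zero_add]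
          exact Real.log_le_log hpos (htR i)
      · rw [if_neg h0]
        push Not at h0
        rw [if_neg (fun h => by rw [h0] at h; exact lt_irrefl _ h.1), zero_add]
        exact hlogR
    rw [Finset.sum_add_distrib, ← Finset.sum_filter, Finset.sum_const, Finset.sum_const,
      nsmul_eq_mul, nsmul_eq_mul, Finset.card_univ] at h2
    rw [one_div, Real.log_inv]
    have h3 := h1.trans h2
    nlinarith
  -- the pointwise bound
  have hpt : ∀ i, (N : ℝ)⁻¹ * ∑ j ∈ Finset.range N, (1 - t i / R) ^ (2 * j)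
      ≤ (if t i = 0 then 1 else 0) + (if 0 < t i ∧ t i ≤ l then 1 else 0) + R / (N * l) := by
    intro i
    have hx0 : 0 ≤ 1 - t i / R := by
      rw [sub_nonneg, div_le_one hR0]
      exact htR i
    have hx1 : 1 - t i / R ≤ 1 := by
      have : 0 ≤ t i / R := div_nonneg (ht0 i) hR0.le
      linarith
    have hrest : 0 ≤ R / (N * l) := by positivity
    have hone := mean_le_one (1 - t i / R) N hx0 hx1
    by_cases h0 : t i = 0
    · rw [if_pos h0]
      have : (0 : ℝ) ≤ if 0 < t i ∧ t i ≤ l then 1 else 0 := by split_ifs <;> norm_num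
      linarith
    · rw [if_neg h0]
      have hpos : 0 < t i := lt_of_le_of_ne (ht0 i) (Ne.symm h0)
      by_cases hl : t i ≤ l
      · rw [if_pos ⟨hpos, hl⟩]
        linarith
      · rw [if_neg (fun h => hl h.2)]
        push Not at hl
        have hd : 0 < t i / R := div_pos hpos hR0
        have h1 := mean_le (1 - t i / R) N hN hx0 (by linarith)
        refine h1.trans ?_
        rw [sub_sub_cancel, zero_add, zero_add]
        rw [show 1 / (N * (t i / R)) = R / (N * t i) by field_simp]
        apply div_le_div_of_nonneg_left hR0.le (by positivity)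
        exact mul_le_mul_of_nonneg_left hl.le hN'.le
  have hsum := Finset.sum_le_sum fun i (_ : i ∈ (Finset.univ : Finset Q)) => hpt i
  rw [Finset.sum_add_distrib, Finset.sum_add_distrib, Finset.sum_boole, Finset.sum_boole,
    Finset.sum_const, Finset.card_univ, nsmul_eq_mul] at hsum
  rw [hsg, hker]
  have h6 : (1 / (q : ℝ)) * ∑ i, ((N : ℝ)⁻¹ * ∑ j ∈ Finset.range N, (1 - t i / R) ^ (2 * j))
      ≤ (1 / (q : ℝ)) * (((Finset.univ.filter (fun i => t i = 0)).card : ℝ) + (s : ℝ)
        + q * (R / (N * l))) :=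
    mul_le_mul_of_nonneg_left hsum (by positivity)
  refine h6.trans ?_
  have hlog : 0 < Real.log (1 / l) := by
    rw [one_div, Real.log_inv]; linarith
  have h7 : (1 / (q : ℝ)) * s ≤ Real.log R / Real.log (1 / l) := by
    rw [le_div_iff₀ hlog, mul_assoc, one_div, inv_mul_le_iff₀ hq0]
    exact hs1
  have h8 : (1 / (q : ℝ)) * (q * (R / (N * l))) = R / (N * l) := by
    field_simp
  rw [mul_add, mul_add, h8]
  linarith

end Pool.Agent.L0h69.UL
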